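import Pool.Agent.Helper2K9.SQ.MainC
import Pool.Agent.Helper2K9.FP.Full

set_option autoImplicit false

/-! The constant of Hardy and Littlewood for `n = p + m²`. -/

namespace Pool.Agent.Helper2K9.SQ

open Finset Filter Topology
open Pool.Agent.W468.ConjF (SJ PJ)
open Pool.Agent.R460.SC (cf)

/-- the product over the odd primes `p ≤ z` -/
noncomputable def HL (n z : ℕ) : ℝ := ∏ p ∈ (Icc 3 z).filter Nat.Prime, (1 - (jacobiSym n p : ℝ) / (p - 1))

lemma roots_eq (n p : ℕ) : roots n p = FP.roots 1 0 n p := by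
  unfold roots FP.roots FP.g
  congr 1
  apply filter_congr
  intro m _
  have e : ((1 : ℕ) : ℤ) * (m : ℤ) ^ 2 + 0 * (m : ℤ) - n = (m : ℤ) ^ 2 - n := by push_cast; ring
  rw [e]
  exact dvd_sub_comm

lemma Sing_eq (n z : ℕ) : Sing n z = FP.Sing 1 0 n z := by
  unfold Sing FP.Sing fac FP.fac
  simp only [roots_eq]

lemma roots_lt (n p : ℕ) (hp : p.Prime) : roots n p < p := by
  rcases eq_or_ne p 2 with rfl | h2
  · rw [roots_two]
    norm_num
  · have h3 : 2 < p := lt_of_le_of_ne hp.two_le (Ne.symm h2)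
    exact (roots_le n p hp).trans_lt h3

lemma cf_one (n z : ℕ) : 2 * cf ((1 : ℕ) : ℤ) 0 (-(n : ℤ)) z = HL n z := by
  unfold cf HL
  have hodd : Odd (((1 : ℕ) : ℤ) + 0) := ⟨0, by norm_num⟩
  rw [if_pos hodd]
  have e1 : (Icc 3 z).filter (fun p : ℕ => p.Prime ∧ (p : ℤ) ∣ ((1 : ℕ) : ℤ) ∧ (p : ℤ) ∣ 0) = ∅ := by
    rw [filter_eq_empty_iff]
    rintro p _ ⟨h1, h2, _⟩
    have h3 : p ∣ 1 := by exact_mod_cast h2
    exact h1.one_lt.ne' (Nat.dvd_one.1 h3)
  have e2 : (Icc 3 z).filter (fun p : ℕ => p.Prime ∧ ¬ (p : ℤ) ∣ ((1 : ℕ) : ℤ)) = (Icc 3 z).filter Nat.Prime := by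
    apply filter_congr
    intro p _
    constructor
    · exact fun h => h.1
    · intro h
      refine ⟨h, fun h2 => ?_⟩
      have h3 : p ∣ 1 := by exact_mod_cast h2
      exact h.one_lt.ne' (Nat.dvd_one.1 h3)
  rw [e1, e2, prod_empty, mul_one, ← mul_assoc]
  have e3 : (2 : ℝ) * (1 / 2) = 1 := by norm_num
  rw [e3, one_mul]
  apply prod_congr rfl
  intro p hp
  rw [mem_filter, mem_Icc] at hp
  have h1 : jacobiSym (0 ^ 2 - 4 * ((1 : ℕ) : ℤ) * -(n : ℤ)) p = jacobiSym n p := by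
    have e : (0 ^ 2 - 4 * ((1 : ℕ) : ℤ) * -(n : ℤ) : ℤ) = 2 ^ 2 * n := by push_cast; ring
    rw [e, jacobiSym.mul_left, jacobiSym.pow_left]
    have h4 : jacobiSym 2 p ^ 2 = 1 := by
      apply jacobiSym.sq_one
      have := (Nat.coprime_primes Nat.prime_two hp.2).2 (by omega)
      exact_mod_cast this
    rw [h4, one_mul]
  rw [h1]

lemma Sing_HL (n : ℕ) {z : ℕ} (hz : 2 ≤ z) : Sing n z = HL n z := by
  rw [Sing_eq, ← cf_one]
  exact FP.Sing_cf 1 0 n (fun p hp => by rw [← roots_eq]; exact roots_lt n p hp) hz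

open Classical in
/-- the asymptotic formula with the constant of Hardy and Littlewood -/
theorem partF (B : ℕ) (ε : ℝ) (hε : 0 < ε) : ∃ A : ℕ, ∀ N : ℕ, A ≤ N →
    ∀ x : ℕ, A * Real.log N ≤ x → (x : ℝ) ≤ Real.log N ^ B →
    (((Icc 1 N).filter (fun n => ¬ ∃ C : ℝ, 0 < C ∧ Tendsto (fun z : ℕ => HL n z) atTop (𝓝 C) ∧
        ∀ y ≤ x, |reps n y * (Real.log N / 2) - C * y| ≤ ε * x)).card : ℝ) ≤ ε * N := by
  set K0 : ℝ := 8 / ε with hK0
  have hK : 0 < K0 := by rw [hK0]; positivity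
  set δ : ℝ := min (1 / 4) (ε ^ 2 / 64) with hδ
  have hδ0 : 0 < δ := lt_min (by norm_num) (by positivity)
  have hδ1 : δ ≤ 1 / 4 := min_le_left _ _
  have hδ2 : δ ≤ ε ^ 2 / 64 := min_le_right _ _
  obtain ⟨z1, h1⟩ := partA B (ε / 4) (by positivity)
  obtain ⟨z2, h2⟩ := FP.tailA 1 0 one_pos δ (ε / 4) hδ0 (by positivity)
  obtain ⟨z3, h3⟩ : ∃ z3 : ℕ, 5 / δ ≤ (z3 : ℝ) := ⟨⌈5 / δ⌉₊, Nat.le_ceil _⟩
  obtain ⟨z, hz⟩ : ∃ z : ℕ, z = z1 + z2 + z3 + 2 := ⟨_, rfl⟩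
  obtain ⟨A1, f1⟩ := h1 z (by omega)
  obtain ⟨N2, f2⟩ := h2 z (by omega)
  refine ⟨A1 + N2 + primorial z + 1, fun N hN x hx1 hx2 => ?_⟩
  have hNr : (0 : ℝ) < N := by exact_mod_cast (by omega : 0 < N)
  have hlog0 : 0 ≤ Real.log N := Real.log_natCast_nonneg N
  have hx1' : (A1 : ℝ) * Real.log N ≤ x := by
    refine le_trans (mul_le_mul_of_nonneg_right ?_ hlog0) hx1
    exact_mod_cast (by omega : A1 ≤ A1 + N2 + primorial z + 1)
  have k1 := f1 N (by omega) x hx1' hx2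
  have k2 := f2 N (by omega)
  have k3 := large z N (by omega) K0 hK
  have hz0 : (0 : ℝ) < z := by exact_mod_cast (by omega : 0 < z)
  have h5z : 5 / (z : ℝ) ≤ δ := by
    rw [div_le_iff₀ hδ0] at h3
    rw [div_le_iff₀ hz0]
    have : (z3 : ℝ) ≤ z := by exact_mod_cast (by omega : z3 ≤ z)
    nlinarith
  have hsub : (Icc 1 N).filter (fun n => ¬ ∃ C : ℝ, 0 < C ∧ Tendsto (fun z : ℕ => HL n z) atTop (𝓝 C) ∧
        ∀ y ≤ x, |reps n y * (Real.log N / 2) - C * y| ≤ ε * x) ⊆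
      ((Icc 1 N).filter (fun n => ¬ ∀ y ≤ x, |reps n y * (Real.log N / 2) - Sing n z * y| ≤ ε / 4 * x) ∪
      (Icc 1 N).filter (fun n : ℕ => ¬ (¬ IsSquare (0 ^ 2 - 4 * ((1 : ℕ) : ℤ) * (-n : ℤ)) ∧
        ∀ᶠ M in atTop, |SJ (0 ^ 2 - 4 * ((1 : ℕ) : ℤ) * (-n : ℤ)) z M| ≤ δ))) ∪
      (Icc 1 N).filter (fun n => K0 < Sing n z) := by
    intro n hn
    rw [mem_filter] at hn
    by_contra hcon
    rw [mem_union, mem_union, mem_filter, mem_filter, mem_filter] at hcon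
    push Not at hcon
    obtain ⟨⟨c1, c2⟩, c3⟩ := hcon
    apply hn.2
    have c1' := c1 hn.1
    obtain ⟨d1, d2⟩ := c2 hn.1
    have c3' := c3 hn.1
    obtain ⟨L, hL0, hL, hL1⟩ := FP.PJ_lim (δ := δ) d1 (by omega : 2 ≤ z) hδ0.le (by linarith) d2
    have hS := Sing_HL n (z := z) (by omega)
    have hSp := Sing_pos n z
    refine ⟨Sing n z * L, mul_pos hSp hL0, ?_, fun y hy => ?_⟩
    · refine (hL.const_mul (Sing n z)).congr' ?_
      filter_upwards [eventually_ge_atTop z] with M hM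
      rw [hS, ← cf_one, ← cf_one, FP.cf_split (by norm_num) (by omega) (by exact_mod_cast (by omega : 1 ≤ z)) hM]
      ring
    · have g1 := c1' y hy
      have hyx : (y : ℝ) ≤ x := by exact_mod_cast hy
      have hy0 : (0 : ℝ) ≤ y := Nat.cast_nonneg _
      have e1 : reps n y * (Real.log N / 2) - Sing n z * L * y =
          (reps n y * (Real.log N / 2) - Sing n z * y) - Sing n z * (L - 1) * y := by
        ring
      rw [e1]
      refine (abs_sub _ _).trans ?_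
      have e2 : |Sing n z * (L - 1) * y| ≤ K0 * (4 * δ) * x := by
        rw [abs_mul, abs_mul, abs_of_pos hSp, abs_of_nonneg hy0]
        apply mul_le_mul _ hyx hy0 (by positivity)
        apply mul_le_mul c3' _ (abs_nonneg _) hK.le
        linarith
      have e3 : K0 * (4 * δ) ≤ ε / 2 := by
        calc K0 * (4 * δ) ≤ K0 * (4 * (ε ^ 2 / 64)) := by
              apply mul_le_mul_of_nonneg_left _ hK.le
              linarith
          _ = ε / 2 := by
              rw [hK0]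
              field_simp
              norm_num
      have e4 : K0 * (4 * δ) * x ≤ ε / 2 * x := mul_le_mul_of_nonneg_right e3 (Nat.cast_nonneg _)
      have e5 : 0 ≤ ε * (x : ℝ) := by positivity
      linarith
  have q3 : (((Icc 1 N).filter (fun n => K0 < Sing n z)).card : ℝ) ≤ ε / 4 * N := by
    have e1 : 2 / K0 = ε / 4 := by rw [hK0]; field_simp; norm_num
    rwa [e1] at k3
  calc _ ≤ _ := Nat.cast_le.2 (card_le_card hsub)
    _ ≤ (((((Icc 1 N).filter (fun n => ¬ ∀ y ≤ x, |reps n y * (Real.log N / 2) - Sing n z * y| ≤ ε / 4 * x)).card +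
      ((Icc 1 N).filter (fun n : ℕ => ¬ (¬ IsSquare (0 ^ 2 - 4 * ((1 : ℕ) : ℤ) * (-n : ℤ)) ∧
        ∀ᶠ M in atTop, |SJ (0 ^ 2 - 4 * ((1 : ℕ) : ℤ) * (-n : ℤ)) z M| ≤ δ))).card) +
      ((Icc 1 N).filter (fun n => K0 < Sing n z)).card : ℕ) : ℝ) := by
        apply Nat.cast_le.2
        refine (card_union_le _ _).trans (Nat.add_le_add_right ?_ _)
        exact card_union_le _ _
    _ ≤ ε * N := by
        rw [Nat.cast_add, Nat.cast_add]
        have := mul_pos hε hNr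
        linarith

end Pool.Agent.Helper2K9.SQ
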