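import Mathlib

set_option autoImplicit false

/-! The truncated singular series of `n = p + m²` on average over `n`. -/

namespace Pool.Agent.Helper2K9.SQ

open Finset

/-- the number of `m` modulo `p` with `m² ≡ n (mod p)` -/
def roots (n p : ℕ) : ℕ := ((range p).filter (fun m : ℕ => (p : ℤ) ∣ (n : ℤ) - (m : ℤ) ^ 2)).card

lemma roots_mod {n n' p : ℕ} (h : n ≡ n' [MOD p]) : roots n p = roots n' p := by
  unfold roots
  congr 1
  apply filter_congr
  intro m _
  have h1 : (n : ℤ) ≡ n' [ZMOD p] := (Int.natCast_modEq_iff).2 h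
  exact Int.ModEq.dvd_iff (h1.sub_right _)

lemma sum_roots (p : ℕ) (hp : 0 < p) : ∑ n ∈ range p, roots n p = p := by
  have h1 : ∀ m ∈ range p, ((range p).filter (fun n : ℕ => (p : ℤ) ∣ (n : ℤ) - (m : ℤ) ^ 2)).card = 1 := by
    intro m _
    rw [card_eq_one]
    refine ⟨m ^ 2 % p, ?_⟩
    ext n
    rw [mem_filter, mem_range, mem_singleton]
    have e : ((p : ℤ) ∣ (n : ℤ) - (m : ℤ) ^ 2) ↔ n ≡ m ^ 2 [MOD p] := by
      rw [← Int.natCast_modEq_iff]
      push_cast
      constructor
      · intro h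
        exact (Int.modEq_iff_dvd.2 h).symm
      · intro h
        exact Int.modEq_iff_dvd.1 h.symm
    rw [e]
    constructor
    · rintro ⟨h1, h2⟩
      have h3 : n % p = m ^ 2 % p := h2
      rwa [Nat.mod_eq_of_lt h1] at h3
    · rintro rfl
      exact ⟨Nat.mod_lt _ hp, Nat.mod_modEq _ _⟩
  unfold roots
  simp only [card_filter]
  rw [sum_comm]
  simp only [← card_filter]
  rw [sum_congr rfl h1]
  simp

lemma roots_le (n p : ℕ) (hp : p.Prime) : roots n p ≤ 2 := by
  unfold roots
  rcases ((range p).filter (fun m : ℕ => (p : ℤ) ∣ (n : ℤ) - (m : ℤ) ^ 2)).eq_empty_or_nonempty with h | ⟨m, hm⟩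
  · rw [h]; simp
  · rw [mem_filter, mem_range] at hm
    have hsub : (range p).filter (fun m : ℕ => (p : ℤ) ∣ (n : ℤ) - (m : ℤ) ^ 2) ⊆ {m, p - m} := by
      intro k hk
      rw [mem_filter, mem_range] at hk
      rw [mem_insert, mem_singleton]
      have h1 : (p : ℤ) ∣ ((k : ℤ) - m) * (k + m) := by
        have h2 := dvd_sub hm.2 hk.2
        have h3 : ((n : ℤ) - (m : ℤ) ^ 2) - ((n : ℤ) - (k : ℤ) ^ 2) = ((k : ℤ) - m) * (k + m) := by ring
        rwa [h3] at h2
      rcases (Nat.prime_iff_prime_int.1 hp).dvd_or_dvd h1 with h2 | h2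
      · left
        obtain ⟨c, hc⟩ := h2
        have hp0 : (0 : ℤ) < p := by exact_mod_cast hp.pos
        have hk1 : (k : ℤ) < p := by exact_mod_cast hk.1
        have hm1 : (m : ℤ) < p := by exact_mod_cast hm.1
        have hc0 : c = 0 := by
          by_contra hne
          rcases lt_or_gt_of_ne hne with h | h
          · have : (p : ℤ) * c ≤ p * (-1) := mul_le_mul_of_nonneg_left (by omega) hp0.le
            omega
          · have : (p : ℤ) * 1 ≤ p * c := mul_le_mul_of_nonneg_left (by omega) hp0.le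
            omega
        rw [hc0, mul_zero] at hc
        omega
      · have h3 : (p : ℕ) ∣ k + m := by exact_mod_cast h2
        obtain ⟨c, hc⟩ := h3
        have hc2 : c < 2 := by
          by_contra hcon
          have : p * 2 ≤ p * c := Nat.mul_le_mul_left p (by omega)
          omega
        interval_cases c
        · left; omega
        · right; omega
    refine (card_le_card hsub).trans ?_
    exact card_le_two

lemma roots_two (n : ℕ) : roots n 2 = 1 := by
  have h : roots n 2 = roots (n % 2) 2 := roots_mod (Nat.mod_modEq n 2).symm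
  rw [h]
  rcases Nat.mod_two_eq_zero_or_one n with h | h <;> rw [h] <;> decide

/-- the factor of the singular series at `p` -/
noncomputable def fac (n p : ℕ) : ℝ := (1 - (roots n p : ℝ) / p) / (1 - 1 / (p : ℝ))

/-- the singular series of `n = p + m²`, truncated at `z` -/
noncomputable def Sing (n z : ℕ) : ℝ := ∏ p ∈ (Icc 1 z).filter Nat.Prime, fac n p

lemma fac_pos (n p : ℕ) (hp : p.Prime) : 0 < fac n p := by
  unfold fac
  have hp0 : (0 : ℝ) < p := by exact_mod_cast hp.pos
  have hp1 : (1 : ℝ) < p := by exact_mod_cast hp.one_lt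
  apply div_pos
  · rcases eq_or_ne p 2 with rfl | h2
    · rw [roots_two]; norm_num
    · have h3 : 2 < p := lt_of_le_of_ne hp.two_le (Ne.symm h2)
      have h4 : (roots n p : ℝ) < p := by
        have := roots_le n p hp
        exact_mod_cast (by omega : roots n p < p)
      rw [sub_pos, div_lt_one hp0]
      exact h4
  · rw [sub_pos, div_lt_one hp0]
    exact hp1

lemma Sing_pos (n z : ℕ) : 0 < Sing n z := prod_pos fun p hp => fac_pos n p (mem_filter.1 hp).2

lemma sum_fac (p : ℕ) (hp : p.Prime) : ∑ n ∈ range p, fac n p = p := by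
  have hp0 : (0 : ℝ) < p := by exact_mod_cast hp.pos
  have hp1 : (1 : ℝ) < p := by exact_mod_cast hp.one_lt
  have h1 : ∑ n ∈ range p, (roots n p : ℝ) = p := by
    have := sum_roots p hp.pos
    exact_mod_cast this
  unfold fac
  rw [← sum_div, sum_sub_distrib, ← sum_div, h1, div_self hp0.ne']
  simp only [sum_const, card_range, nsmul_eq_mul, mul_one]
  rw [div_eq_iff (by rw [sub_ne_zero]; intro h; rw [eq_div_iff hp0.ne'] at h; linarith)]
  field_simp

lemma fac_inv_le (n p : ℕ) (hp : p.Prime) : (fac n p)⁻¹ ≤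
    1 + ((roots n p : ℝ) - 1) / (p - 1) + 1 / (((p : ℝ) - 1) * (p - 2)) := by
  have hp0 : (0 : ℝ) < p := by exact_mod_cast hp.pos
  have hp1 : (1 : ℝ) < p := by exact_mod_cast hp.one_lt
  rcases eq_or_ne p 2 with rfl | h2
  · unfold fac
    rw [roots_two]
    norm_num
  · have h3 : 3 ≤ p := lt_of_le_of_ne hp.two_le (Ne.symm h2)
    have h3' : (3 : ℝ) ≤ p := by exact_mod_cast h3
    have hr : roots n p ≤ 2 := roots_le n p hp
    have hr' : (roots n p : ℝ) ≤ 2 := by exact_mod_cast hr
    have hr0 : (0 : ℝ) ≤ roots n p := Nat.cast_nonneg _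
    have hsq : ((roots n p : ℝ) - 1) ^ 2 ≤ 1 := by nlinarith
    have e : (fac n p)⁻¹ = (p - 1) / (p - roots n p) := by
      unfold fac
      rw [inv_div]
      rw [div_eq_div_iff (by
        have : (roots n p : ℝ) / p < 1 := by rw [div_lt_one hp0]; linarith
        linarith) (by linarith)]
      field_simp
    rw [e]
    have hpr : (0 : ℝ) < p - roots n p := by linarith
    have e2 : ((p : ℝ) - 1) / (p - roots n p) = 1 + ((roots n p : ℝ) - 1) / (p - 1) +
        ((roots n p : ℝ) - 1) ^ 2 / ((p - 1) * (p - roots n p)) := by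
      have hp1' : (0 : ℝ) < p - 1 := by linarith
      field_simp
      ring
    rw [e2]
    have h4 : ((roots n p : ℝ) - 1) ^ 2 / ((p - 1) * (p - roots n p)) ≤ 1 / (((p : ℝ) - 1) * (p - 2)) := by
      apply div_le_div₀ zero_le_one hsq
      · apply mul_pos <;> linarith
      · apply mul_le_mul_of_nonneg_left _ (by linarith)
        linarith
    linarith

lemma sum_inv (p : ℕ) (hp : p.Prime) : ∑ n ∈ range p, (fac n p)⁻¹ ≤ p * (1 + 1 / (((p : ℝ) - 1) * (p - 2))) := by
  have hp0 : (0 : ℝ) < p := by exact_mod_cast hp.pos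
  have h1 : ∑ n ∈ range p, (roots n p : ℝ) = p := by
    have := sum_roots p hp.pos
    exact_mod_cast this
  calc ∑ n ∈ range p, (fac n p)⁻¹ ≤ ∑ n ∈ range p, (1 + ((roots n p : ℝ) - 1) / (p - 1) + 1 / (((p : ℝ) - 1) * (p - 2))) :=
        sum_le_sum fun n _ => fac_inv_le n p hp
    _ = _ := by
        rw [sum_add_distrib, sum_add_distrib, ← sum_div, sum_sub_distrib, h1]
        simp only [sum_const, card_range, nsmul_eq_mul, mul_one, sub_self, zero_div, add_zero]
        ring

lemma crt_sum (a b : ℕ) (ha : 0 < a) (hb : 0 < b) (hab : Nat.Coprime a b) (F G : ℕ → ℝ)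
    (hF : ∀ n m : ℕ, n ≡ m [MOD a] → F n = F m) (hG : ∀ n m : ℕ, n ≡ m [MOD b] → G n = G m) :
    ∑ n ∈ range (a * b), F n * G n = (∑ n ∈ range a, F n) * (∑ n ∈ range b, G n) := by
  rw [sum_mul_sum, ← sum_product']
  apply sum_bij' (fun n _ => (n % a, n % b)) (fun q _ => (Nat.chineseRemainder hab q.1 q.2 : ℕ))
  · intro n _
    rw [mem_product, mem_range, mem_range]
    exact ⟨Nat.mod_lt _ ha, Nat.mod_lt _ hb⟩
  · intro q hq
    rw [mem_range]
    exact Nat.chineseRemainder_lt_mul hab _ _ ha.ne' hb.ne'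
  · intro n hn
    rw [mem_range] at hn
    simp only
    have h1 := (Nat.chineseRemainder hab (n % a) (n % b)).2
    have h2 : (Nat.chineseRemainder hab (n % a) (n % b) : ℕ) ≡ n [MOD a * b] :=
      (Nat.modEq_and_modEq_iff_modEq_mul hab).1 ⟨h1.1.trans (Nat.mod_modEq n a), h1.2.trans (Nat.mod_modEq n b)⟩
    exact Nat.ModEq.eq_of_lt_of_lt h2 (Nat.chineseRemainder_lt_mul hab _ _ ha.ne' hb.ne') hn
  · intro q hq
    rw [mem_product, mem_range, mem_range] at hq
    have h1 := (Nat.chineseRemainder hab q.1 q.2).2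
    apply Prod.ext
    · have h2 := h1.1
      unfold Nat.ModEq at h2
      simp only
      rw [h2, Nat.mod_eq_of_lt hq.1]
    · have h2 := h1.2
      unfold Nat.ModEq at h2
      simp only
      rw [h2, Nat.mod_eq_of_lt hq.2]
  · intro n _
    simp only
    rw [hF n (n % a) (Nat.mod_modEq n a).symm, hG n (n % b) (Nat.mod_modEq n b).symm]

lemma avg_prod (P : Finset ℕ) (hP : ∀ p ∈ P, p.Prime) (f : ℕ → ℕ → ℝ)
    (hf : ∀ p n m : ℕ, n ≡ m [MOD p] → f p n = f p m) :
    ∑ n ∈ range (∏ p ∈ P, p), ∏ p ∈ P, f p n = ∏ p ∈ P, ∑ n ∈ range p, f p n := by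
  classical
  induction P using Finset.induction_on with
  | empty => simp
  | insert q P hq ih =>
    have ih' := ih (fun p hp => hP p (mem_insert_of_mem hp))
    rw [prod_insert hq, prod_insert hq, ← ih']
    have hq0 : 0 < q := (hP q (mem_insert_self _ _)).pos
    have hP0 : 0 < ∏ p ∈ P, p := prod_pos fun p hp => (hP p (mem_insert_of_mem hp)).pos
    have hcop : Nat.Coprime q (∏ p ∈ P, p) := by
      apply Nat.Coprime.prod_right
      intro p hp
      rw [Nat.coprime_primes (hP q (mem_insert_self _ _)) (hP p (mem_insert_of_mem hp))]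
      intro h
      rw [h] at hq
      exact hq hp
    rw [← crt_sum q (∏ p ∈ P, p) hq0 hP0 hcop (f q) (fun n => ∏ p ∈ P, f p n) (hf q) (by
      intro n m h
      apply prod_congr rfl
      intro p hp
      exact hf p n m (h.of_dvd (dvd_prod_of_mem _ hp)))]
    apply sum_congr rfl
    intro n _
    rw [prod_insert hq]

lemma prod_primes (z : ℕ) : ∏ p ∈ (Icc 1 z).filter Nat.Prime, p = primorial z := by
  unfold primorial
  apply prod_congr _ (fun _ _ => rfl)
  ext p
  rw [mem_filter, mem_Icc, mem_filter, mem_range]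
  constructor
  · rintro ⟨⟨_, h2⟩, h3⟩; exact ⟨by omega, h3⟩
  · rintro ⟨h2, h3⟩; exact ⟨⟨h3.one_le, by omega⟩, h3⟩

lemma sum_Sing (z : ℕ) : ∑ n ∈ range (primorial z), Sing n z = primorial z := by
  rw [← prod_primes]
  unfold Sing
  rw [avg_prod _ (fun p hp => (mem_filter.1 hp).2) (fun p n => fac n p) (fun p n m h => by
    unfold fac
    rw [roots_mod h])]
  rw [prod_congr rfl (fun p hp => sum_fac p (mem_filter.1 hp).2)]
  push_cast
  rfl

lemma tele (z : ℕ) : ∑ p ∈ (Icc 1 z).filter Nat.Prime, 1 / (((p : ℝ) - 1) * (p - 2)) ≤ 1 := by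
  have h1 : ∑ p ∈ (Icc 1 z).filter Nat.Prime, 1 / (((p : ℝ) - 1) * (p - 2)) ≤
      ∑ p ∈ Icc 3 (z + 3), 1 / (((p : ℝ) - 1) * (p - 2)) := by
    have e : ∑ p ∈ (Icc 1 z).filter Nat.Prime, 1 / (((p : ℝ) - 1) * (p - 2)) =
        ∑ p ∈ ((Icc 1 z).filter Nat.Prime).filter (fun p => p ≠ 2), 1 / (((p : ℝ) - 1) * (p - 2)) := by
      rw [sum_filter (s := (Icc 1 z).filter Nat.Prime)]
      apply sum_congr rfl
      intro p _
      split_ifs with h
      · rfl
      · push Not at h
        rw [h]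
        norm_num
    rw [e]
    apply sum_le_sum_of_subset_of_nonneg
    · intro p hp
      rw [mem_filter, mem_filter, mem_Icc] at hp
      rw [mem_Icc]
      have := hp.1.2.two_le
      omega
    · intro p hp _
      rw [mem_Icc] at hp
      have : (3 : ℝ) ≤ p := by exact_mod_cast hp.1
      apply div_nonneg zero_le_one
      apply mul_nonneg <;> linarith
  have h2 : ∀ w : ℕ, ∑ p ∈ Icc 3 (w + 3), 1 / (((p : ℝ) - 1) * (p - 2)) = 1 - 1 / (w + 2) := by
    intro w
    induction w with
    | zero => norm_num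
    | succ w ih =>
      rw [show w + 1 + 3 = (w + 3) + 1 by ring, sum_Icc_succ_top (by omega), ih]
      push_cast
      have : (0 : ℝ) ≤ w := Nat.cast_nonneg _
      have e1 : (w : ℝ) + 3 + 1 - 1 = w + 3 := by ring
      have e2 : (w : ℝ) + 3 + 1 - 2 = w + 2 := by ring
      rw [e1, e2]
      field_simp
      ring
  refine h1.trans ?_
  rw [h2]
  have : (0 : ℝ) ≤ 1 / ((z : ℝ) + 2) := by positivity
  linarith

lemma sum_Sing_inv (z : ℕ) : ∑ n ∈ range (primorial z), (Sing n z)⁻¹ ≤ 3 * primorial z := by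
  rw [← prod_primes]
  have e : ∀ n, (Sing n z)⁻¹ = ∏ p ∈ (Icc 1 z).filter Nat.Prime, (fac n p)⁻¹ := by
    intro n
    unfold Sing
    rw [prod_inv_distrib]
  simp only [e]
  rw [avg_prod _ (fun p hp => (mem_filter.1 hp).2) (fun p n => (fac n p)⁻¹) (fun p n m h => by
    unfold fac
    rw [roots_mod h])]
  calc ∏ p ∈ (Icc 1 z).filter Nat.Prime, ∑ n ∈ range p, (fac n p)⁻¹ ≤
      ∏ p ∈ (Icc 1 z).filter Nat.Prime, ((p : ℝ) * Real.exp (1 / (((p : ℝ) - 1) * (p - 2)))) := by
        apply Finset.prod_le_prod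
        · intro p hp
          exact sum_nonneg fun n _ => (inv_pos.2 (fac_pos n p (mem_filter.1 hp).2)).le
        · intro p hp
          refine (sum_inv p (mem_filter.1 hp).2).trans ?_
          apply mul_le_mul_of_nonneg_left _ (Nat.cast_nonneg _)
          have := Real.add_one_le_exp (1 / (((p : ℝ) - 1) * (p - 2)))
          linarith
    _ = (∏ p ∈ (Icc 1 z).filter Nat.Prime, (p : ℝ)) * Real.exp (∑ p ∈ (Icc 1 z).filter Nat.Prime, 1 / (((p : ℝ) - 1) * (p - 2))) := by
        rw [prod_mul_distrib, Real.exp_sum]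
    _ ≤ (∏ p ∈ (Icc 1 z).filter Nat.Prime, (p : ℝ)) * 3 := by
        apply mul_le_mul_of_nonneg_left _ (prod_nonneg fun p _ => Nat.cast_nonneg _)
        refine (Real.exp_le_exp.2 (tele z)).trans ?_
        have := Real.exp_one_lt_d9
        linarith
    _ = _ := by
        push_cast
        ring

lemma Sing_mod {n m z : ℕ} (h : n ≡ m [MOD primorial z]) : Sing n z = Sing m z := by
  unfold Sing
  apply prod_congr rfl
  intro p hp
  unfold fac
  rw [roots_mod (h.of_dvd ?_)]
  rw [← prod_primes]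
  exact dvd_prod_of_mem _ hp

lemma block (W : ℕ) (f : ℕ → ℝ) (hf : ∀ n m : ℕ, n ≡ m [MOD W] → f n = f m) (K : ℕ) :
    ∑ n ∈ range (K * W), f n = K * ∑ n ∈ range W, f n := by
  induction K with
  | zero => simp
  | succ K ih =>
    rw [add_mul, one_mul, sum_range_add, ih]
    have : ∀ x ∈ range W, f (K * W + x) = f x := by
      intro x _
      apply hf
      unfold Nat.ModEq
      rw [Nat.mul_add_mod_self_right]
    rw [sum_congr rfl this]
    push_cast
    ring

lemma avg_le (z N : ℕ) (hN : primorial z ≤ N) (f : ℕ → ℝ) (hf : ∀ n m : ℕ, n ≡ m [MOD primorial z] → f n = f m)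
    (hf0 : ∀ n, 0 ≤ f n) (c : ℝ) (hc : 0 ≤ c) (h : ∑ n ∈ range (primorial z), f n ≤ c * primorial z) :
    ∑ n ∈ Icc 1 N, f n ≤ 2 * c * N := by
  have hW := primorial_pos z
  have h1 : Icc 1 N ⊆ range ((N / primorial z + 1) * primorial z) := by
    intro n hn
    rw [mem_Icc] at hn
    rw [mem_range]
    have := Nat.lt_mul_div_succ N hW
    calc n ≤ N := hn.2
      _ < primorial z * (N / primorial z + 1) := this
      _ = _ := by ring
  have h2 : (((N / primorial z + 1 : ℕ)) : ℝ) * primorial z ≤ 2 * N := by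
    have h3 : (N / primorial z + 1) * primorial z ≤ 2 * N := by
      have := Nat.div_mul_le_self N (primorial z)
      rw [add_mul, one_mul]
      omega
    exact_mod_cast h3
  calc ∑ n ∈ Icc 1 N, f n ≤ ∑ n ∈ range ((N / primorial z + 1) * primorial z), f n :=
        sum_le_sum_of_subset_of_nonneg h1 fun n _ _ => hf0 n
    _ = ((N / primorial z + 1 : ℕ) : ℝ) * ∑ n ∈ range (primorial z), f n := block _ f hf _
    _ ≤ ((N / primorial z + 1 : ℕ) : ℝ) * (c * primorial z) := mul_le_mul_of_nonneg_left h (Nat.cast_nonneg _)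
    _ = c * (((N / primorial z + 1 : ℕ) : ℝ) * primorial z) := by ring
    _ ≤ c * (2 * N) := mul_le_mul_of_nonneg_left h2 hc
    _ = _ := by ring

open Classical in
/-- the singular series is rarely large -/
lemma large (z N : ℕ) (hN : primorial z ≤ N) (K : ℝ) (hK : 0 < K) :
    (((Icc 1 N).filter (fun n => K < Sing n z)).card : ℝ) ≤ 2 / K * N := by
  have h1 := avg_le z N hN (fun n => Sing n z) (fun n m h => Sing_mod h) (fun n => (Sing_pos n z).le) 1 zero_le_one
    (by rw [sum_Sing, one_mul])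
  have h2 : K * (((Icc 1 N).filter (fun n => K < Sing n z)).card : ℝ) ≤ ∑ n ∈ Icc 1 N, Sing n z := by
    calc K * (((Icc 1 N).filter (fun n => K < Sing n z)).card : ℝ) =
        ∑ n ∈ (Icc 1 N).filter (fun n => K < Sing n z), K := by rw [sum_const, nsmul_eq_mul, mul_comm]
      _ ≤ ∑ n ∈ (Icc 1 N).filter (fun n => K < Sing n z), Sing n z := sum_le_sum fun n hn => (mem_filter.1 hn).2.le
      _ ≤ _ := sum_le_sum_of_subset_of_nonneg (filter_subset _ _) fun n _ _ => (Sing_pos n z).le
  have h3 : K * (((Icc 1 N).filter (fun n => K < Sing n z)).card : ℝ) ≤ K * (2 / K * N) := by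
    have : K * (2 / K * N) = 2 * N := by field_simp
    linarith
  exact le_of_mul_le_mul_left h3 hK

open Classical in
/-- the singular series is rarely small -/
lemma small (z N : ℕ) (hN : primorial z ≤ N) (η : ℝ) (hη : 0 < η) :
    (((Icc 1 N).filter (fun n => Sing n z < η)).card : ℝ) ≤ 6 * η * N := by
  have h1 := avg_le z N hN (fun n => (Sing n z)⁻¹) (fun n m h => by rw [Sing_mod h])
    (fun n => (inv_pos.2 (Sing_pos n z)).le) 3 (by norm_num) (sum_Sing_inv z)
  have h2 : η⁻¹ * (((Icc 1 N).filter (fun n => Sing n z < η)).card : ℝ) ≤ ∑ n ∈ Icc 1 N, (Sing n z)⁻¹ := by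
    calc η⁻¹ * (((Icc 1 N).filter (fun n => Sing n z < η)).card : ℝ) =
        ∑ n ∈ (Icc 1 N).filter (fun n => Sing n z < η), η⁻¹ := by rw [sum_const, nsmul_eq_mul, mul_comm]
      _ ≤ ∑ n ∈ (Icc 1 N).filter (fun n => Sing n z < η), (Sing n z)⁻¹ := sum_le_sum fun n hn =>
          inv_anti₀ (Sing_pos n z) (mem_filter.1 hn).2.le
      _ ≤ _ := sum_le_sum_of_subset_of_nonneg (filter_subset _ _) fun n _ _ => (inv_pos.2 (Sing_pos n z)).le
  have h3 : η * (η⁻¹ * (((Icc 1 N).filter (fun n => Sing n z < η)).card : ℝ)) ≤ η * (2 * 3 * N) :=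
    mul_le_mul_of_nonneg_left (h2.trans h1) hη.le
  rw [← mul_assoc, mul_inv_cancel₀ hη.ne', one_mul] at h3
  linarith

end Pool.Agent.Helper2K9.SQ
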