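import Pool.Agent.Helper2K9.SQ.Root

set_option autoImplicit false

/-! Weighted sums over the positions. -/

namespace Pool.Agent.Helper2K9.SQ

open Finset Filter Pool.Agent.Helper82K9.PR

lemma om_sub (L L' : ℝ) (h : L ≤ L') (u : ℤ) : |om L' u - om L u| = (L' - L) * om 1 u := by
  unfold om
  split_ifs
  · rw [mul_one, abs_of_nonneg (by linarith)]
  · simp

lemma om_scale (L : ℝ) (u : ℤ) : om L u = L * om 1 u := by
  unfold om
  split_ifs <;> simp

open Classical in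
theorem partB (B : ℕ) (ε : ℝ) (hε : 0 < ε) : ∃ z0 : ℕ, 1 ≤ z0 ∧ ∀ z : ℕ, z0 ≤ z → ∃ A : ℕ, 3 ≤ A ∧ ∀ N : ℕ, A ≤ N →
    ∀ x : ℕ, A * Real.log N ≤ x → (x : ℝ) ≤ Real.log N ^ B → ∀ w : ℕ → ℂ, (∀ n, ‖w n‖ ≤ 1) →
    (((Icc 1 N).filter (fun n => ε * x < ‖∑ t ∈ Icc 1 x, w t *
      ((om (Real.log N / 2) (val n t) - MM (primorial z) (val n t) : ℝ) : ℂ)‖)).card : ℝ) ≤ ε * N := by
  set e : ℝ := ε / 400 with he
  have he0 : 0 < e := by rw [he]; positivity
  obtain ⟨z0, hz0, h⟩ := almostW 1 le_rfl h1 h1_inj 1 (by norm_num) (2 * B) 1 e he0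
  refine ⟨z0, hz0, fun z hz => ?_⟩
  obtain ⟨A0, hA0, hA⟩ := h z hz
  have hC := Cz_ge z
  have hCe : 0 < Cz z + e := by linarith
  obtain ⟨N1, hN1, hev⟩ := ev B (min (1 / 8) (ε / (16 * (Cz z + e)))) (lt_min (by norm_num) (by positivity))
  refine ⟨A0 ^ 2 + N1 + 3, by omega, fun N hN x hx1 hx2 w hw => ?_⟩
  obtain ⟨g1, g2⟩ := hev N (by omega)
  have hN1' : 1 ≤ N := by omega
  have hNr : (0 : ℝ) < N := by exact_mod_cast hN1'
  have gm : (min (1 / 8 : ℝ) (ε / (16 * (Cz z + e)))) ≤ 1 / 8 := min_le_left _ _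
  have gm0 : 0 < (min (1 / 8 : ℝ) (ε / (16 * (Cz z + e)))) := lt_min (by norm_num) (by positivity)
  have g3 : (8 : ℝ) ≤ Real.log N := by
    refine le_trans ?_ g2
    rw [le_inv_comm₀ (by norm_num) gm0]
    refine gm.trans (by norm_num)
  have g4 : 16 * (Cz z + e) ≤ ε * Real.log N := by
    have h2 : (ε / (16 * (Cz z + e)))⁻¹ ≤ Real.log N := by
      refine le_trans ?_ g2
      apply inv_anti₀ gm0 (min_le_right _ _)
    rw [inv_div, div_le_iff₀ hε] at h2
    linarith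
  obtain ⟨l1, l2⟩ := log_H N hN1'
  set H : ℕ := 2 * Nat.sqrt N + 2 with hH
  set L : ℝ := Real.log (H : ℝ) with hL
  have hL4 : 4 ≤ L := by linarith
  have hAH : A0 ≤ H := by
    have : A0 ≤ Nat.sqrt N := by
      rw [Nat.le_sqrt']
      omega
    omega
  have hxL : A0 * L ^ 1 ≤ x := by
    rw [pow_one]
    refine le_trans ?_ hx1
    have h2 : (A0 : ℝ) ≤ ((A0 ^ 2 + N1 + 3 : ℕ) : ℝ) := by
      exact_mod_cast (by nlinarith : A0 ≤ A0 ^ 2 + N1 + 3)
    apply mul_le_mul h2 (by linarith) (by linarith) (Nat.cast_nonneg _)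
  have hxL2 : (x : ℝ) ≤ L ^ (2 * B) := by
    refine hx2.trans ?_
    rw [pow_mul]
    apply pow_le_pow_left₀ (by linarith)
    nlinarith
  have hx8 : ((x : ℝ) + 1) ^ 2 ≤ N := by
    have h2 : ((x : ℝ) + 1) ^ 2 ≤ (Real.log N ^ B + 1) ^ 2 := by
      apply pow_le_pow_left₀ (by positivity)
      linarith
    have h3 : (min (1 / 8 : ℝ) (ε / (16 * (Cz z + e)))) * N ≤ 1 * N :=
      mul_le_mul_of_nonneg_right (gm.trans (by norm_num)) hNr.le
    linarith
  have hxs : x ≤ Nat.sqrt N := by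
    rw [Nat.le_sqrt']
    have : ((x + 1) ^ 2 : ℕ) ≤ N := by exact_mod_cast hx8
    exact (Nat.pow_le_pow_left (Nat.le_succ x) 2).trans this
  have hx0 : (0 : ℝ) < x := by
    refine lt_of_lt_of_le ?_ hx1
    apply mul_pos _ (by linarith)
    exact_mod_cast (by omega : 0 < A0 ^ 2 + N1 + 3)
  have hG : ∀ n ∈ Icc 1 x, ∀ i, |((G1 n i : ℤ) : ℝ)| ≤ 1 * H * ((n + h1 i : ℕ) : ℝ) ^ 1 := by
    intro t ht i
    rw [mem_Icc] at ht
    have e2 : (t + h1 i : ℕ) = t := rfl
    rw [e2]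
    unfold G1
    push_cast
    rw [abs_neg, abs_of_nonneg (by positivity), pow_one, one_mul]
    have h2 : (1 : ℝ) ≤ t := by exact_mod_cast ht.1
    have h3 : (t : ℝ) ≤ H := by exact_mod_cast (by omega : t ≤ H)
    nlinarith
  have b1 := hA H hAH x hxL hxL2 G1 hG w hw
  have b2 := hA H hAH x hxL hxL2 G1 hG (fun _ => 1) (fun _ => by simp)
  have c1 := (transfer N (fun v => e * x < ‖∑ n ∈ Icc 1 x, w n * ((FF L h1 G1 v n - RR z h1 G1 v n : ℝ) : ℂ)‖)).trans b1
  have c2 := (transfer N (fun v => e * x < ‖∑ n ∈ Icc 1 x, (1 : ℂ) * ((FF L h1 G1 v n - RR z h1 G1 v n : ℝ) : ℂ)‖)).trans b2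
  have hcard := card_le N hN1'
  rw [← hH] at hcard
  simp only [FF_vv, RR_vv] at c1 c2
  have hsub : (Icc 1 N).filter (fun n => ε * x < ‖∑ t ∈ Icc 1 x, w t *
      ((om (Real.log N / 2) (val n t) - MM (primorial z) (val n t) : ℝ) : ℂ)‖) ⊆
      (Icc 1 N).filter (fun n => e * x < ‖∑ t ∈ Icc 1 x, w t * ((om L (val n t) - MM (primorial z) (val n t) : ℝ) : ℂ)‖) ∪
      (Icc 1 N).filter (fun n => e * x < ‖∑ t ∈ Icc 1 x, (1 : ℂ) * ((om L (val n t) - MM (primorial z) (val n t) : ℝ) : ℂ)‖) := by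
    intro n hn
    rw [mem_filter] at hn
    rw [mem_union, mem_filter, mem_filter]
    by_contra hcon
    push Not at hcon
    have d1 := hcon.1 hn.1
    have d2 := hcon.2 hn.1
    have d3 : ∑ t ∈ Icc 1 x, om L (val n t) ≤ (Cz z + e) * x := by
      have s1 : ‖∑ t ∈ Icc 1 x, (1 : ℂ) * ((om L (val n t) - MM (primorial z) (val n t) : ℝ) : ℂ)‖ =
          |∑ t ∈ Icc 1 x, om L (val n t) - ∑ t ∈ Icc 1 x, MM (primorial z) (val n t)| := by
        rw [← sum_sub_distrib, ← Real.norm_eq_abs, ← Complex.norm_real]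
        congr 1
        push_cast
        apply sum_congr rfl
        intro t _
        rw [one_mul]
      rw [s1] at d2
      have s2 := (abs_le.1 d2).2
      have s3 : ∑ t ∈ Icc 1 x, MM (primorial z) (val n t) ≤ Cz z * x := by
        calc ∑ t ∈ Icc 1 x, MM (primorial z) (val n t) ≤ ∑ t ∈ Icc 1 x, Cz z := sum_le_sum fun t _ => MM_le_Cz z _
          _ = _ := by rw [sum_const, Nat.card_Icc, Nat.add_sub_cancel, nsmul_eq_mul, mul_comm]
      linarith
    have d4 : ∑ t ∈ Icc 1 x, om 1 (val n t) ≤ (Cz z + e) * x / L := by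
      rw [le_div_iff₀ (by linarith)]
      refine le_trans (le_of_eq ?_) d3
      rw [mul_comm, mul_sum]
      exact sum_congr rfl fun t _ => (om_scale L _).symm
    have d5 : ‖∑ t ∈ Icc 1 x, w t * ((om (Real.log N / 2) (val n t) - MM (primorial z) (val n t) : ℝ) : ℂ)‖ ≤
        ‖∑ t ∈ Icc 1 x, w t * ((om L (val n t) - MM (primorial z) (val n t) : ℝ) : ℂ)‖ +
          2 * ∑ t ∈ Icc 1 x, om 1 (val n t) := by
      have s1 : ∑ t ∈ Icc 1 x, w t * ((om (Real.log N / 2) (val n t) - MM (primorial z) (val n t) : ℝ) : ℂ) =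
          ∑ t ∈ Icc 1 x, w t * ((om L (val n t) - MM (primorial z) (val n t) : ℝ) : ℂ) -
          ∑ t ∈ Icc 1 x, w t * ((om L (val n t) - om (Real.log N / 2) (val n t) : ℝ) : ℂ) := by
        rw [← sum_sub_distrib]
        apply sum_congr rfl
        intro t _
        push_cast
        ring
      rw [s1]
      refine (norm_sub_le _ _).trans ?_
      apply add_le_add le_rfl
      rw [mul_sum]
      refine (norm_sum_le _ _).trans (sum_le_sum fun t _ => ?_)
      rw [norm_mul, Complex.norm_real, Real.norm_eq_abs, om_sub _ _ l1]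
      have s2 : 0 ≤ om 1 (val n t) := om_nonneg zero_le_one _
      calc ‖w t‖ * ((L - Real.log N / 2) * om 1 (val n t)) ≤ 1 * (2 * om 1 (val n t)) := by
            apply mul_le_mul (hw t) _ (by apply mul_nonneg _ s2; linarith) zero_le_one
            apply mul_le_mul_of_nonneg_right _ s2
            linarith
        _ = _ := one_mul _
    have d6 : 2 * ((Cz z + e) * x / L) ≤ ε / 4 * x := by
      rw [mul_div_assoc', div_le_iff₀ (by linarith)]
      have s1 : 8 * (Cz z + e) ≤ ε * L := by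
        have : ε * (Real.log N / 2) ≤ ε * L := mul_le_mul_of_nonneg_left l1 hε.le
        linarith
      have s2 : 8 * (Cz z + e) * x ≤ ε * L * x := mul_le_mul_of_nonneg_right s1 hx0.le
      linarith
    have d7 : e * x ≤ ε / 400 * x := by rw [he]
    have d8 : ε / 400 * x + ε / 4 * x ≤ ε * x := by linarith [mul_pos hε hx0]
    linarith [hn.2]
  calc (((Icc 1 N).filter (fun n => ε * x < ‖∑ t ∈ Icc 1 x, w t *
      ((om (Real.log N / 2) (val n t) - MM (primorial z) (val n t) : ℝ) : ℂ)‖)).card : ℝ) ≤ _ :=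
        Nat.cast_le.2 ((card_le_card hsub).trans (card_union_le _ _))
    _ ≤ e * (81 * N) + e * (81 * N) := by
        rw [Nat.cast_add]
        apply add_le_add
        · exact c1.trans (mul_le_mul_of_nonneg_left hcard he0.le)
        · exact c2.trans (mul_le_mul_of_nonneg_left hcard he0.le)
    _ ≤ ε * N := by
        rw [he]
        linarith [mul_pos hε hNr]

end Pool.Agent.Helper2K9.SQ
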