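import Pool.Agent.Helper2K9.SQ.MainA

set_option autoImplicit false

/-! The order of magnitude of the least prime `p` for which `n - p` is a square. -/

namespace Pool.Agent.Helper2K9.SQ

open Finset Filter Pool.Agent.Helper82K9.PR

/-- the first moment -/
lemma first (t0 : ℕ) : ∃ N₀ : ℕ, ∀ N : ℕ, N₀ ≤ N → ∀ y : ℕ, (y : ℝ) ≤ Real.log N ^ t0 → ∀ t ∈ Icc 1 y,
    (((Icc 1 N).filter (fun n => (val n t).natAbs.Prime)).card : ℝ) ≤ 486 * N / Real.log N := by
  classical
  obtain ⟨H0, hH0, h⟩ := single2 1 h1 h1_inj 1 (by norm_num) (2 * t0) 1 1 one_pos 1 (fun i => Nat.zero_le _)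
  obtain ⟨N1, hN1, hev⟩ := ev t0 (1 / 8) (by norm_num)
  refine ⟨H0 ^ 2 + N1, fun N hN y hy t ht => ?_⟩
  obtain ⟨g1, g2⟩ := hev N (by omega)
  have g3 : (8 : ℝ) ≤ Real.log N := by
    refine le_trans ?_ g2
    norm_num
  have hN1' : 1 ≤ N := by omega
  have hNr : (0 : ℝ) < N := by exact_mod_cast hN1'
  obtain ⟨l1, l2⟩ := log_H N hN1'
  have hcard := card_le N hN1'
  set H : ℕ := 2 * Nat.sqrt N + 2 with hH
  set L : ℝ := Real.log (H : ℝ) with hL
  have hL4 : 4 ≤ L := by linarith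
  have hAH : H0 ≤ H := by
    have : H0 ≤ Nat.sqrt N := by
      rw [Nat.le_sqrt']
      omega
    omega
  have hyL : (y : ℝ) ≤ L ^ (2 * t0) := by
    refine hy.trans ?_
    rw [pow_mul]
    apply pow_le_pow_left₀ (by linarith)
    nlinarith
  have hys : y ≤ Nat.sqrt N := by
    rw [Nat.le_sqrt']
    have h2 : ((y : ℝ) + 1) ^ 2 ≤ (Real.log N ^ t0 + 1) ^ 2 := by
      apply pow_le_pow_left₀ (by positivity)
      linarith
    have : ((y + 1) ^ 2 : ℕ) ≤ N := by
      have h3 : ((y : ℝ) + 1) ^ 2 ≤ N := by linarith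
      exact_mod_cast h3
    exact (Nat.pow_le_pow_left (Nat.le_succ y) 2).trans this
  have ht' := mem_Icc.1 ht
  have hG : ∀ i, |((G1 t i : ℤ) : ℝ)| ≤ 1 * H * ((t + h1 i : ℕ) : ℝ) ^ 1 := by
    intro i
    have e2 : (t + h1 i : ℕ) = t := rfl
    rw [e2]
    unfold G1
    push_cast
    rw [abs_neg, abs_of_nonneg (by positivity), pow_one, one_mul]
    have h2 : (1 : ℝ) ≤ t := by exact_mod_cast ht'.1
    have h3 : (t : ℝ) ≤ H := by exact_mod_cast (by omega : t ≤ H)
    nlinarith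
  have b1 := h H hAH y (by omega) hyL G1 t ht'.1 (fun i => ht'.2) hG
  have b2 : ∑ v ∈ Bx 1 H, RR 1 h1 G1 v t ≤ (Bx 1 H).card := by
    calc ∑ v ∈ Bx 1 H, RR 1 h1 G1 v t ≤ ∑ v ∈ Bx 1 H, Cz 1 ^ 1 := sum_le_sum fun v _ => RR_le 1 h1 G1 v t
      _ = _ := by
          have : Cz 1 = 1 := by
            unfold Cz
            have : primorial 1 = 1 := by decide
            rw [this]
            simp
          rw [sum_const, this, nsmul_eq_mul]
          simp
  have hC1 : Cz 1 = 1 := by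
    unfold Cz
    have : primorial 1 = 1 := by decide
    rw [this]
    simp
  rw [hC1] at b1
  have b3 : ∑ v ∈ Bx 1 H, FF L h1 G1 v t ≤ 3 * (Bx 1 H).card := by
    have := (abs_le.1 b1).2
    norm_num at this
    linarith
  have b4 : L * (((Bx 1 H).filter (fun v => (pv v t + G1 t 0).natAbs.Prime)).card : ℝ) ≤ ∑ v ∈ Bx 1 H, FF L h1 G1 v t := by
    have e1 : ∀ v : Fin (1 + 1) → ℤ, FF L h1 G1 v t = if (pv v t + G1 t 0).natAbs.Prime then L else 0 := by
      intro v
      unfold FF om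
      rw [Fin.prod_univ_one]
      rfl
    rw [sum_congr rfl (fun v _ => e1 v), ← sum_filter, sum_const, nsmul_eq_mul, mul_comm]
  have b5 := transfer N (fun v => (pv v t + G1 t 0).natAbs.Prime)
  simp only [pv_vv] at b5
  have hlog : 0 < Real.log N := by linarith
  have e1 : (((Icc 1 N).filter (fun n => (val n t).natAbs.Prime)).card : ℝ) ≤
      (((Bx 1 H).filter (fun v => (pv v t + G1 t 0).natAbs.Prime)).card : ℝ) := by
    convert b5
  rw [le_div_iff₀ hlog]
  have e2 : (((Bx 1 H).filter (fun v => (pv v t + G1 t 0).natAbs.Prime)).card : ℝ) * Real.log N ≤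
      2 * (L * (((Bx 1 H).filter (fun v => (pv v t + G1 t 0).natAbs.Prime)).card : ℝ)) := by
    have h0 : (0 : ℝ) ≤ (((Bx 1 H).filter (fun v => (pv v t + G1 t 0).natAbs.Prime)).card : ℝ) := Nat.cast_nonneg _
    nlinarith
  have e3 : (((Icc 1 N).filter (fun n => (val n t).natAbs.Prime)).card : ℝ) * Real.log N ≤
      (((Bx 1 H).filter (fun v => (pv v t + G1 t 0).natAbs.Prime)).card : ℝ) * Real.log N :=
    mul_le_mul_of_nonneg_right e1 hlog.le
  linarith

/-- the primes `p` for which `n - p` is a square -/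
def Reps (n : ℕ) : Set ℕ := {p | p.Prime ∧ ∃ m : ℕ, n = p + m ^ 2}

open Classical in
theorem partC (ε : ℝ) (hε : 0 < ε) : ∃ c C : ℝ, 0 < c ∧ 0 < C ∧ ∃ N₀ : ℕ, ∀ N : ℕ, N₀ ≤ N →
    (((Icc 1 N).filter (fun n => ¬ ∃ p : ℕ, IsLeast (Reps n) p ∧ c * (√n * Real.log n) ≤ p ∧
      p ≤ C * (√n * Real.log n))).card : ℝ) ≤ ε * N := by
  set η : ℝ := ε / 24 with hη
  have hη0 : 0 < η := by rw [hη]; positivity
  set δ : ℝ := min (ε / 4) (η / 2) with hδ
  have hδ0 : 0 < δ := lt_min (by positivity) (by positivity)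
  obtain ⟨z0, h⟩ := partA 2 δ hδ0
  obtain ⟨A, hA⟩ := h z0 le_rfl
  set c : ℝ := ε / 4000 with hc
  have hc0 : 0 < c := by rw [hc]; positivity
  obtain ⟨N2, hF⟩ := first 2
  set μ : ℝ := min ((ε / 8) ^ 2) (min (1 / ((A : ℝ) + 3 + 2 * c)) (min c 1)) with hμ
  have hμ0 : 0 < μ := lt_min (by positivity) (lt_min (by positivity) (lt_min hc0 one_pos))
  obtain ⟨N1, hN1, hev⟩ := ev 4 μ hμ0
  refine ⟨c, 8 * (A + 2), hc0, by positivity, A + N2 + N1 + primorial z0, fun N hN => ?_⟩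
  obtain ⟨g1, g2⟩ := hev N (by omega)
  have hNr : (0 : ℝ) < N := by exact_mod_cast (by omega : 0 < N)
  set Λ : ℝ := Real.log N with hΛ
  have hAr : (0 : ℝ) ≤ A := Nat.cast_nonneg _
  have g3 : (A : ℝ) + 3 + 2 * c ≤ Λ := by
    have h1 : μ ≤ 1 / ((A : ℝ) + 3 + 2 * c) := (min_le_right _ _).trans (min_le_left _ _)
    have h2 := inv_anti₀ hμ0 h1
    rw [one_div, inv_inv] at h2
    exact h2.trans g2
  have g4 : 1 ≤ c * Λ := by
    have h1 : μ ≤ c := (min_le_right _ _).trans ((min_le_right _ _).trans (min_le_left _ _))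
    have h2 := inv_anti₀ hμ0 h1
    have h3 : c⁻¹ ≤ Λ := h2.trans g2
    rwa [inv_le_iff_one_le_mul₀' hc0] at h3
  have hΛ3 : 3 ≤ Λ := by linarith
  have hμ1 : μ ≤ 1 := (min_le_right _ _).trans ((min_le_right _ _).trans (min_le_right _ _))
  have hμε : μ ≤ (ε / 8) ^ 2 := min_le_left _ _
  have hsq : (√(N : ℝ)) ^ 2 = N := Real.sq_sqrt hNr.le
  have hsq0 : 0 < √(N : ℝ) := Real.sqrt_pos.2 hNr
  have g5 : Λ ^ 4 + 1 ≤ √N := by
    apply Real.le_sqrt_of_sq_le
    refine g1.trans ?_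
    calc μ * (N : ℝ) ≤ 1 * N := mul_le_mul_of_nonneg_right hμ1 hNr.le
      _ = N := one_mul _
  have g6 : √(N : ℝ) ≤ ε / 8 * N := by
    have h1 : (1 : ℝ) ≤ μ * N := by
      refine le_trans ?_ g1
      have : (0 : ℝ) ≤ Λ ^ 4 := by positivity
      nlinarith
    have h2 : 1 ≤ (ε / 8 * √N) ^ 2 := by
      rw [mul_pow, hsq]
      exact h1.trans (mul_le_mul_of_nonneg_right hμε hNr.le)
    have h3 : 1 ≤ ε / 8 * √N := by
      by_contra hcon
      push Not at hcon
      have h4 : 0 ≤ ε / 8 * √N := by positivity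
      nlinarith
    calc √(N : ℝ) = 1 * √N := (one_mul _).symm
      _ ≤ (ε / 8 * √N) * √N := mul_le_mul_of_nonneg_right h3 hsq0.le
      _ = ε / 8 * (√N) ^ 2 := by ring
      _ = _ := by rw [hsq]
  obtain ⟨x, hx1, hx2⟩ : ∃ x : ℕ, (A + 1) * Λ ≤ x ∧ (x : ℝ) ≤ (A + 1) * Λ + 1 :=
    ⟨⌈(A + 1) * Λ⌉₊, Nat.le_ceil _, (Nat.ceil_lt_add_one (by positivity)).le⟩
  have hx3 : (x : ℝ) + 1 ≤ Λ ^ 2 := by nlinarith
  have hx0 : (0 : ℝ) < x := by nlinarith
  have hxN : ((x : ℝ) + 1) ^ 2 ≤ √N := by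
    calc ((x : ℝ) + 1) ^ 2 ≤ (Λ ^ 2) ^ 2 := pow_le_pow_left₀ (by positivity) hx3 2
      _ = Λ ^ 4 := by ring
      _ ≤ √N := by linarith
  obtain ⟨y, hy1, hy2⟩ : ∃ y : ℕ, (∀ t : ℕ, (t : ℝ) ≤ 1 + c * Λ → t ≤ y) ∧ (y : ℝ) ≤ 1 + c * Λ :=
    ⟨⌊1 + c * Λ⌋₊, fun t ht => Nat.le_floor ht, Nat.floor_le (by positivity)⟩
  have hy3 : (y : ℝ) ≤ Λ ^ 2 := by nlinarith
  have k1 := hA N (by omega) x (by nlinarith) (by linarith)
  have k2 := small z0 N (by omega) η hη0
  have k3 := hF N (by omega) y hy3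
  set E3 : ℕ → Finset ℕ := fun t => (Icc 1 N).filter (fun n => (val n t).natAbs.Prime) with hE3
  have hsub : (Icc 1 N).filter (fun n => ¬ ∃ p : ℕ, IsLeast (Reps n) p ∧ c * (√n * Real.log n) ≤ p ∧
      p ≤ 8 * (A + 2) * (√n * Real.log n)) ⊆
      ((range (Nat.sqrt N) ∪ (Icc 1 N).filter (fun n => ¬ ∀ y ≤ x, |reps n y * (Real.log N / 2) - Sing n z0 * y| ≤ δ * x)) ∪
        (Icc 1 N).filter (fun n => Sing n z0 < η)) ∪ (Icc 1 y).biUnion E3 := by
    intro n hn
    rw [mem_filter] at hn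
    by_contra hcon
    rw [mem_union, mem_union, mem_union, mem_range, mem_filter, mem_filter, mem_biUnion] at hcon
    push Not at hcon
    obtain ⟨⟨⟨c1, c2⟩, c3⟩, c4⟩ := hcon
    apply hn.2
    have c2' := c2 hn.1 x le_rfl
    have c3' := c3 hn.1
    have hn1 : 1 ≤ n ∧ n ≤ N := mem_Icc.1 hn.1
    have hnr : (1 : ℝ) ≤ n := by exact_mod_cast hn1.1
    have hnN : √(N : ℝ) ≤ n + 1 := by
      have h1 : √(N : ℝ) ≤ Nat.sqrt N + 1 := Real.real_sqrt_le_nat_sqrt_succ
      have h2 : (Nat.sqrt N : ℝ) ≤ n := by exact_mod_cast c1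
      linarith
    have hlog : Λ ≤ 4 * Real.log n := by
      have h1 : √(N : ℝ) ≤ (n : ℝ) ^ 2 := by
        have h2 : (3 : ℝ) ≤ √N := by
          have : (3 : ℝ) ^ 4 ≤ Λ ^ 4 := pow_le_pow_left₀ (by norm_num) hΛ3 4
          linarith
        nlinarith
      have h2 := Real.log_le_log hsq0 h1
      rw [Real.log_sqrt hNr.le, Real.log_pow] at h2
      push_cast at h2
      rw [← hΛ] at h2
      linarith
    have hlogn : Real.log n ≤ Λ := by
      apply Real.log_le_log (by linarith)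
      exact_mod_cast hn1.2
    have hsn0 : 0 < √(n : ℝ) := Real.sqrt_pos.2 (by linarith)
    have hsn : (√(n : ℝ)) ^ 2 = n := Real.sq_sqrt (by linarith)
    have hlogn0 : 0 ≤ Real.log n := Real.log_nonneg hnr
    -- a representation
    have hrep : reps n x ≠ 0 := by
      intro h0
      rw [h0] at c2'
      have h1 := (abs_le.1 c2').1
      have h2 : η * x ≤ Sing n z0 * x := mul_le_mul_of_nonneg_right c3' hx0.le
      have h3 : δ * x ≤ η / 2 * x := mul_le_mul_of_nonneg_right (min_le_right _ _) hx0.le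
      have h4 : 0 < η * x := mul_pos hη0 hx0
      push_cast at h1
      linarith
    obtain ⟨m, hm⟩ := card_pos.1 (Nat.pos_of_ne_zero hrep)
    rw [mem_filter, mem_Ioc] at hm
    have hmn : m ^ 2 ≤ n := (Nat.pow_le_pow_left hm.1.2 2).trans (Nat.sqrt_le' n)
    have hmem : n - m ^ 2 ∈ Reps n := ⟨hm.2, m, by omega⟩
    have hne : (Reps n).Nonempty := ⟨_, hmem⟩
    refine ⟨sInf (Reps n), ⟨Nat.sInf_mem hne, fun q hq => Nat.sInf_le hq⟩, ?_, ?_⟩
    · -- lower bound
      by_contra hlt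
      push Not at hlt
      obtain ⟨hp, m', hm'⟩ := Nat.sInf_mem hne
      set p := sInf (Reps n) with hpdef
      have hm's : m' ≤ Nat.sqrt n := by
        rw [Nat.le_sqrt']
        omega
      have hm'r : (m' : ℝ) ≤ √n := le_trans (by exact_mod_cast hm's) Real.nat_sqrt_le_real_sqrt
      have h1 : (n : ℝ) = p + (m' : ℝ) ^ 2 := by exact_mod_cast hm'
      have h2 : (√(n : ℝ) - m') * √n ≤ c * Real.log n * √n := by
        have h3 : (√(n : ℝ) - m') * √n ≤ (√(n : ℝ) - m') * (√n + m') := by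
          apply mul_le_mul_of_nonneg_left _ (by linarith)
          have : (0 : ℝ) ≤ m' := Nat.cast_nonneg _
          linarith
        have h4 : (√(n : ℝ) - m') * (√n + m') = p := by
          have : (√(n : ℝ) - m') * (√n + m') = (√(n : ℝ)) ^ 2 - (m' : ℝ) ^ 2 := by ring
          rw [this, hsn]
          linarith
        rw [h4] at h3
        refine h3.trans (hlt.le.trans (le_of_eq ?_))
        ring
      have h5 : √(n : ℝ) - m' ≤ c * Real.log n := le_of_mul_le_mul_right h2 hsn0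
      have h6 : c * Real.log n ≤ c * Λ := mul_le_mul_of_nonneg_left hlogn hc0.le
      set t : ℕ := Nat.sqrt n + 1 - m' with ht
      have ht1 : 1 ≤ t := by omega
      have htr : (t : ℝ) ≤ 1 + c * Λ := by
        have h7 : (t : ℝ) = (Nat.sqrt n : ℝ) + 1 - m' := by
          rw [ht, Nat.cast_sub (by omega)]
          push_cast
          ring
        have h8 : (Nat.sqrt n : ℝ) ≤ √n := Real.nat_sqrt_le_real_sqrt
        linarith
      have h9 := c4 t (mem_Icc.2 ⟨ht1, hy1 t htr⟩)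
      apply h9
      rw [hE3]
      simp only [mem_filter]
      refine ⟨hn.1, ?_⟩
      rw [val_natAbs n t ht1 (by omega)]
      have h10 : Nat.sqrt n + 1 - t = m' := by omega
      rw [h10]
      have h11 : n - m' ^ 2 = p := by omega
      rw [h11]
      exact hp
    · -- upper bound
      have h1 : sInf (Reps n) ≤ n - m ^ 2 := Nat.sInf_le hmem
      have h2 : ((sInf (Reps n) : ℕ) : ℝ) ≤ ((n - m ^ 2 : ℕ) : ℝ) := by exact_mod_cast h1
      refine h2.trans ?_
      rw [Nat.cast_sub hmn]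
      push_cast
      have hmr : (m : ℝ) ≤ √n := le_trans (by exact_mod_cast hm.1.2) Real.nat_sqrt_le_real_sqrt
      have h3 : √(n : ℝ) - m ≤ x := by
        have h4 : √(n : ℝ) ≤ Nat.sqrt n + 1 := Real.real_sqrt_le_nat_sqrt_succ
        have h5 : Nat.sqrt n + 1 ≤ m + x := by omega
        have h6 : (Nat.sqrt n : ℝ) + 1 ≤ m + x := by exact_mod_cast h5
        linarith
      have h7 : (n : ℝ) - (m : ℝ) ^ 2 = (√(n : ℝ) - m) * (√n + m) := by
        have : (√(n : ℝ) - m) * (√n + m) = (√(n : ℝ)) ^ 2 - (m : ℝ) ^ 2 := by ring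
        rw [this, hsn]
      rw [h7]
      calc (√(n : ℝ) - m) * (√n + m) ≤ x * (2 * √n) := by
            apply mul_le_mul h3 (by linarith) (by positivity) hx0.le
        _ ≤ ((A + 2) * Λ) * (2 * √n) := by
            apply mul_le_mul_of_nonneg_right _ (by positivity)
            nlinarith
        _ ≤ ((A + 2) * (4 * Real.log n)) * (2 * √n) := by
            apply mul_le_mul_of_nonneg_right _ (by positivity)
            apply mul_le_mul_of_nonneg_left hlog (by positivity)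
        _ = _ := by ring
  have q1 : (((range (Nat.sqrt N) : Finset ℕ).card : ℕ) : ℝ) ≤ ε / 8 * N := by
    rw [card_range]
    exact Real.nat_sqrt_le_real_sqrt.trans g6
  have q2 : (((Icc 1 N).filter (fun n => ¬ ∀ y ≤ x, |reps n y * (Real.log N / 2) - Sing n z0 * y| ≤ δ * x)).card : ℝ) ≤
      ε / 4 * N := k1.trans (mul_le_mul_of_nonneg_right (min_le_left _ _) hNr.le)
  have q3 : (((Icc 1 N).filter (fun n => Sing n z0 < η)).card : ℝ) ≤ ε / 4 * N := by
    refine k2.trans (le_of_eq ?_)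
    rw [hη]
    ring
  have q4 : ((((Icc 1 y).biUnion E3).card : ℕ) : ℝ) ≤ ε / 4 * N := by
    calc ((((Icc 1 y).biUnion E3).card : ℕ) : ℝ) ≤ ((∑ t ∈ Icc 1 y, (E3 t).card : ℕ) : ℝ) :=
          Nat.cast_le.2 card_biUnion_le
      _ = ∑ t ∈ Icc 1 y, ((E3 t).card : ℝ) := by push_cast; rfl
      _ ≤ ∑ t ∈ Icc 1 y, 486 * N / Λ := sum_le_sum fun t ht => k3 t ht
      _ = y * (486 * N / Λ) := by
          rw [sum_const, Nat.card_Icc, Nat.add_sub_cancel, nsmul_eq_mul]
      _ ≤ (2 * (c * Λ)) * (486 * N / Λ) := by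
          apply mul_le_mul_of_nonneg_right _ (by positivity)
          linarith
      _ = 972 * c * N := by
          field_simp
          ring
      _ ≤ _ := by
          rw [hc]
          have := mul_pos hε hNr
          linarith
  calc _ ≤ (((((range (Nat.sqrt N) ∪ (Icc 1 N).filter (fun n => ¬ ∀ y ≤ x, |reps n y * (Real.log N / 2) - Sing n z0 * y| ≤ δ * x)) ∪
        (Icc 1 N).filter (fun n => Sing n z0 < η)) ∪ (Icc 1 y).biUnion E3).card : ℕ) : ℝ) := Nat.cast_le.2 (card_le_card hsub)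
    _ ≤ (((range (Nat.sqrt N)).card + ((Icc 1 N).filter (fun n => ¬ ∀ y ≤ x, |reps n y * (Real.log N / 2) - Sing n z0 * y| ≤ δ * x)).card +
        ((Icc 1 N).filter (fun n => Sing n z0 < η)).card + ((Icc 1 y).biUnion E3).card : ℕ) : ℝ) := by
        apply Nat.cast_le.2
        refine (card_union_le _ _).trans (Nat.add_le_add_right ?_ _)
        refine (card_union_le _ _).trans (Nat.add_le_add_right ?_ _)
        exact card_union_le _ _
    _ ≤ ε * N := by
        rw [Nat.cast_add, Nat.cast_add, Nat.cast_add]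
        have : 0 < ε * N := mul_pos hε hNr
        linarith

end Pool.Agent.Helper2K9.SQ
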