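import Pool.Agent.Helper82K9.PR.PR9
import Pool.Agent.Helper2K9.SQ.Loc

set_option autoImplicit false

/-! The numbers `n - (⌊√n⌋ + 1 - t)²` as values of random linear polynomials. -/

namespace Pool.Agent.Helper2K9.SQ

open Finset Filter Pool.Agent.Helper82K9.PR

/-- the value `n - m²`, `m = ⌊√n⌋ + 1 - t` -/
def val (n t : ℕ) : ℤ := (n : ℤ) - ((Nat.sqrt n : ℤ) + 1 - t) ^ 2

/-- the linear polynomial of `n` -/
def vv (n : ℕ) : Fin (1 + 1) → ℤ := ![(n : ℤ) - (Nat.sqrt n : ℤ) ^ 2 - 2 * (Nat.sqrt n : ℤ), 2 * (Nat.sqrt n : ℤ)]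

/-- the quadratic polynomial of `n` -/
def qq (n : ℕ) : Fin (2 + 1) → ℤ :=
  ![(n : ℤ) - (Nat.sqrt n : ℤ) ^ 2 - 2 * (Nat.sqrt n : ℤ) - 1, 2 * (Nat.sqrt n : ℤ) + 2, -1]

def h1 : Fin 1 → ℕ := fun _ => 0

def G1 : ℕ → Fin 1 → ℤ := fun t _ => -((t : ℤ) - 1) ^ 2

lemma h1_inj : Function.Injective h1 := fun a b _ => Subsingleton.elim a b

lemma pv_vv (n t : ℕ) : pv (vv n) t + G1 t 0 = val n t := by
  unfold pv vv G1 val
  rw [Fin.sum_univ_two]
  simp
  ring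

lemma pv_qq (n t : ℕ) : pv (qq n) t = val n t := by
  unfold pv qq val
  rw [Fin.sum_univ_three]
  simp
  ring

lemma FF_vv (L : ℝ) (n t : ℕ) : FF L h1 G1 (vv n) t = om L (val n t) := by
  unfold FF
  rw [Fin.prod_univ_one]
  have : t + h1 0 = t := rfl
  rw [this, pv_vv]

lemma RR_vv (z n t : ℕ) : RR z h1 G1 (vv n) t = MM (primorial z) (val n t) := by
  unfold RR
  rw [Fin.prod_univ_one]
  have : t + h1 0 = t := rfl
  rw [this, pv_vv]

lemma RR_qq (z n t : ℕ) : RR z h1 (fun _ _ => 0) (qq n) t = MM (primorial z) (val n t) := by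
  unfold RR
  rw [Fin.prod_univ_one]
  have : t + h1 0 = t := rfl
  rw [this, pv_qq, add_zero]

lemma sqrt_facts (n : ℕ) : (Nat.sqrt n : ℤ) ^ 2 ≤ n ∧ (n : ℤ) ≤ (Nat.sqrt n : ℤ) ^ 2 + 2 * Nat.sqrt n := by
  have h1 := Nat.sqrt_le' n
  have h2 := Nat.lt_succ_sqrt' n
  constructor
  · exact_mod_cast h1
  · rw [Nat.succ_eq_add_one] at h2
    have h3 : (n : ℤ) < ((Nat.sqrt n : ℤ) + 1) ^ 2 := by exact_mod_cast h2
    nlinarith

lemma vv_mem (N n : ℕ) (hn : n ≤ N) : vv n ∈ Bx 1 (2 * Nat.sqrt N + 2) := by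
  unfold Bx
  rw [Fintype.mem_piFinset]
  have h1 := sqrt_facts n
  have h2 : (Nat.sqrt n : ℤ) ≤ Nat.sqrt N := by exact_mod_cast Nat.sqrt_le_sqrt hn
  have h3 : (0 : ℤ) ≤ Nat.sqrt n := by positivity
  intro i
  rw [mem_Icc]
  fin_cases i
  · simp only [vv]
    simp
    constructor <;> linarith
  · simp only [vv]
    simp
    constructor <;> linarith

lemma vv_inj : Function.Injective vv := by
  intro a b h
  have h0 := congrFun h 0
  have h1 := congrFun h 1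
  simp only [vv] at h0 h1
  simp at h0 h1
  have h2 : (Nat.sqrt a : ℤ) = Nat.sqrt b := by exact_mod_cast h1
  rw [h2] at h0
  have h3 : (a : ℤ) = b := by linarith
  exact_mod_cast h3

open Classical in
lemma transfer (N : ℕ) (E : (Fin (1 + 1) → ℤ) → Prop) :
    (((Icc 1 N).filter (fun n => E (vv n))).card : ℝ) ≤ (((Bx 1 (2 * Nat.sqrt N + 2)).filter E).card : ℝ) := by
  rw [Nat.cast_le]
  apply card_le_card_of_injOn vv
  · intro n hn
    rw [mem_coe, mem_filter, mem_Icc] at hn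
    rw [mem_coe, mem_filter]
    exact ⟨vv_mem N n hn.1.2, hn.2⟩
  · exact vv_inj.injOn

lemma card_le (N : ℕ) (hN : 1 ≤ N) : (((Bx 1 (2 * Nat.sqrt N + 2)).card : ℕ) : ℝ) ≤ 81 * N := by
  rw [card_Bx]
  push_cast
  have h1 : (Nat.sqrt N : ℝ) ≤ √N := Real.nat_sqrt_le_real_sqrt
  have h2 : (1 : ℝ) ≤ √N := by
    rw [Real.one_le_sqrt]
    exact_mod_cast hN
  have h3 : (√(N : ℝ)) ^ 2 = N := Real.sq_sqrt (Nat.cast_nonneg _)
  have h4 : (0 : ℝ) ≤ Nat.sqrt N := Nat.cast_nonneg _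
  calc (2 * (2 * (Nat.sqrt N : ℝ) + 2) + 1) ^ (1 + 1) ≤ (9 * √N) ^ 2 := by
        apply pow_le_pow_left₀ (by positivity)
        linarith
    _ = _ := by rw [mul_pow, h3]; norm_num

/-- the size of `log H` -/
lemma log_H (N : ℕ) (hN : 1 ≤ N) : Real.log N / 2 ≤ Real.log ((2 * Nat.sqrt N + 2 : ℕ) : ℝ) ∧
    Real.log ((2 * Nat.sqrt N + 2 : ℕ) : ℝ) ≤ Real.log N / 2 + 2 := by
  have hN0 : (0 : ℝ) < N := by exact_mod_cast hN
  have h1 : (Nat.sqrt N : ℝ) ≤ √N := Real.nat_sqrt_le_real_sqrt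
  have h2 : (1 : ℝ) ≤ √N := by
    rw [Real.one_le_sqrt]
    exact_mod_cast hN
  have h3 : √(N : ℝ) ≤ Nat.sqrt N + 1 := Real.real_sqrt_le_nat_sqrt_succ
  have h4 : Real.log √N = Real.log N / 2 := Real.log_sqrt hN0.le
  constructor
  · rw [← h4]
    apply Real.log_le_log (by linarith)
    push_cast
    have : (0 : ℝ) ≤ Nat.sqrt N := Nat.cast_nonneg _
    linarith
  · have h5 : ((2 * Nat.sqrt N + 2 : ℕ) : ℝ) ≤ Real.exp 2 * √N := by
      push_cast
      have : (4 : ℝ) ≤ Real.exp 2 := by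
        have := Real.add_one_le_exp (1 : ℝ)
        have e : Real.exp 2 = Real.exp 1 * Real.exp 1 := by rw [← Real.exp_add]; norm_num
        rw [e]
        nlinarith
      nlinarith
    calc Real.log ((2 * Nat.sqrt N + 2 : ℕ) : ℝ) ≤ Real.log (Real.exp 2 * √N) := by
          apply Real.log_le_log _ h5
          positivity
      _ = _ := by
          rw [Real.log_mul (Real.exp_pos _).ne' (by linarith), Real.log_exp, h4]
          ring

/-- the eventual inequalities -/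
lemma ev (B : ℕ) (δ : ℝ) (hδ : 0 < δ) : ∃ N₀ : ℕ, 1 ≤ N₀ ∧ ∀ N : ℕ, N₀ ≤ N → (Real.log N ^ B + 1) ^ 2 ≤ δ * N ∧
    δ⁻¹ ≤ Real.log N := by
  have h1 : Tendsto (fun n : ℕ => (n : ℝ)) atTop atTop := tendsto_natCast_atTop_atTop
  have h2 := ((Real.isLittleO_pow_log_id_atTop (n := 2 * B)).comp_tendsto h1).def (c := δ / 4) (by positivity)
  have h3 : Tendsto (fun n : ℕ => Real.log n) atTop atTop := Real.tendsto_log_atTop.comp h1
  obtain ⟨a, ha⟩ := eventually_atTop.1 h2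
  obtain ⟨b, hb⟩ := eventually_atTop.1 (h3.eventually_ge_atTop (max 1 δ⁻¹))
  refine ⟨max (max a b) 1, le_max_right _ _, fun N hN => ?_⟩
  have h4 := ha N ((le_max_left _ _).trans ((le_max_left _ _).trans hN))
  have h5 := hb N ((le_max_right _ _).trans ((le_max_left _ _).trans hN))
  have h6 : 1 ≤ Real.log N := (le_max_left _ _).trans h5
  refine ⟨?_, (le_max_right _ _).trans h5⟩
  simp only [Function.comp, id, Real.norm_eq_abs] at h4
  rw [abs_of_nonneg (by positivity), abs_of_nonneg (Nat.cast_nonneg _)] at h4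
  have h7 : 1 ≤ Real.log N ^ B := one_le_pow₀ h6
  calc (Real.log N ^ B + 1) ^ 2 ≤ (2 * Real.log N ^ B) ^ 2 := by
        apply pow_le_pow_left₀ (by positivity)
        linarith
    _ = 4 * Real.log N ^ (2 * B) := by rw [mul_pow, ← pow_mul, mul_comm B 2]; norm_num
    _ ≤ 4 * (δ / 4 * N) := by linarith
    _ = _ := by ring

/-- the local factors -/
lemma nu_eq (n p : ℕ) (hp : 0 < p) : nu h1 (qq n) p = roots n p := by
  classical
  have hp' : (0 : ℤ) < p := by exact_mod_cast hp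
  have key : ∀ t : ℕ, (((((Nat.sqrt n : ℤ) + 1 - t) % p).toNat : ℕ) : ℤ) = ((Nat.sqrt n : ℤ) + 1 - t) % p :=
    fun t => Int.toNat_of_nonneg (Int.emod_nonneg _ hp'.ne')
  have hlt : ∀ t : ℕ, (((Nat.sqrt n : ℤ) + 1 - t) % p).toNat < p := by
    intro t
    have h1 := Int.emod_lt_of_pos ((Nat.sqrt n : ℤ) + 1 - t) hp'
    have h2 := key t
    omega
  have hinv : ∀ t : ℕ, t < p → (((Nat.sqrt n : ℤ) + 1 - ((((Nat.sqrt n : ℤ) + 1 - t) % p).toNat : ℕ)) % p).toNat = t := by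
    intro t ht
    rw [key t]
    have h1 : ((Nat.sqrt n : ℤ) + 1 - ((Nat.sqrt n : ℤ) + 1 - t) % p) % p = t := by
      rw [Int.sub_emod, Int.emod_emod, ← Int.sub_emod]
      have : (Nat.sqrt n : ℤ) + 1 - ((Nat.sqrt n : ℤ) + 1 - t) = t := by ring
      rw [this]
      exact Int.emod_eq_of_lt (by positivity) (by exact_mod_cast ht)
    rw [h1]
    simp
  unfold nu roots
  apply card_bij' (fun (t : ℕ) _ => (((Nat.sqrt n : ℤ) + 1 - (t : ℤ)) % p).toNat) (fun (t : ℕ) _ => (((Nat.sqrt n : ℤ) + 1 - (t : ℤ)) % p).toNat)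
  · intro t ht
    rw [mem_filter, mem_range] at ht ⊢
    refine ⟨hlt t, ?_⟩
    obtain ⟨i, hi⟩ := ht.2
    have h2 : t + h1 i = t := rfl
    rw [h2, pv_qq] at hi
    rw [key t]
    unfold val at hi
    have h3 : (n : ℤ) - (((Nat.sqrt n : ℤ) + 1 - t) % p) ^ 2 ≡ (n : ℤ) - ((Nat.sqrt n : ℤ) + 1 - t) ^ 2 [ZMOD p] :=
      (Int.mod_modEq _ _).pow 2 |>.sub_left _
    exact (Int.ModEq.dvd_iff h3).2 hi
  · intro m hm
    rw [mem_filter, mem_range] at hm ⊢
    refine ⟨hlt m, 0, ?_⟩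
    have h2 : ((((Nat.sqrt n : ℤ) + 1 - m) % p).toNat) + h1 0 = (((Nat.sqrt n : ℤ) + 1 - m) % p).toNat := rfl
    rw [h2, pv_qq]
    unfold val
    rw [key m]
    have h3 : (n : ℤ) - ((Nat.sqrt n : ℤ) + 1 - ((Nat.sqrt n : ℤ) + 1 - m) % p) ^ 2 ≡
        (n : ℤ) - ((Nat.sqrt n : ℤ) + 1 - ((Nat.sqrt n : ℤ) + 1 - m)) ^ 2 [ZMOD p] :=
      (((Int.mod_modEq _ _).sub_left _).pow 2).sub_left _
    have h4 : (Nat.sqrt n : ℤ) + 1 - ((Nat.sqrt n : ℤ) + 1 - m) = m := by ring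
    rw [h4] at h3
    exact (Int.ModEq.dvd_iff h3).2 hm.2
  · intro t ht
    rw [mem_filter, mem_range] at ht
    exact hinv t ht.1
  · intro t ht
    rw [mem_filter, mem_range] at ht
    exact hinv t ht.1

lemma SS_eq (n z : ℕ) : SS z h1 (qq n) = Sing n z := by
  unfold SS Sing
  apply prod_congr rfl
  intro p hp
  unfold fac
  rw [nu_eq n p (mem_filter.1 hp).2.pos, pow_one]

/-- the number of the arguments with values prime to the small primes -/
lemma formula (n z y : ℕ) : |∑ t ∈ Icc 1 y, MM (primorial z) (val n t) - Sing n z * y| ≤ Cz z * primorial z := by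
  have h := RR_sum z h1 (qq n) y
  rw [SS_eq, pow_one] at h
  simp only [RR_qq] at h
  exact h

end Pool.Agent.Helper2K9.SQ
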